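import Mathlib
import Pool.Agent.Lib.MP_3d42d9_lc.Defs
import Pool.Agent.Lib.MP_3d42d9_lc.Main

open Pool.Agent.Lib.MP_3d42d9_lc

theorem Pool.Agent.Results.MP_3d42d9_lc.NoTransfer.result :
    ∃ A B C : ℕ → Bool,
      RandomIn (fun _ => false) A ∧ LRle A B ∧ RandomIn C B ∧ ¬ RandomIn C A :=
  main
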