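import Mathlib
import Pool.Agent.Lib.MP_3d42d9_lc.TR.Main

open Pool.Agent.Lib.MP_3d42d9_lc

theorem Pool.Agent.Results.MP_3d42d9_lc.TransferIff.result (A B : ℕ → Bool) :
    (∀ C, RandomIn C B → RandomIn C A) ↔
    ∃ (P : Set (ℕ → Bool)) (V : List Bool → Set (ℕ → Bool)) (c : ℕ), EffClosed P ∧ UnifOpen V ∧
      (∀ n, 2⁻¹ ^ (n + c) ≤ coin (P ∩ cyl (pre n B))) ∧
      (∀ ρ : List Bool, coin (P ∩ V ρ) ≤ 2 ^ c * 2⁻¹ ^ ρ.length) ∧ ∀ n, B ∈ V (pre n A) :=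
  TR.main A B
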